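import Pool.Agent.Helper1_Gen.Main
import Pool.Agent.Helper42_OPEN.CptA
import Pool.Agent.Helper5_OPEN.Isom

/-!
AEU (MP_5b0138_an): finitely many eigenvalues suffice, and the set of polygons which are determined
by their spectrum among the polygons with at most as many vertices contains an open set of full
measure.
-/

set_option autoImplicit false

namespace Pool.Agent.AEU.H41

open MeasureTheory Complex Filter Topology Pool.Agent.H16Iso Pool.Agent.H1Gen Pool.Agent.H5O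
open Pool.Agent.H5O.H42

/-- `v` is determined by its Dirichlet spectrum among the convex polygons with at most `n`
vertices -/
def Uq {n : ℕ} (v : Fin n → ℂ) : Prop :=
  ∀ m : ℕ, 3 ≤ m → m ≤ n → ∀ w : Fin m → ℂ, CCW w →
    (∀ k, dirEig (poly w) k = dirEig (poly v) k) → m = n ∧ Congruent (poly w) (poly v)

theorem ccw_last {m : ℕ} {u : Fin (m + 3) → ℂ} (hu : CCW u) {k : Fin (m + 3)} (hk : k ≠ 0) :
    0 < det (u 1 - u 0) (u k - u 0) + det (u k - u 0) (u (Fin.last _) - u 0) := by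
  have h1v : ((1 : Fin (m + 3)) : ℕ) = 1 := by simp
  have hk' : 0 < (k : ℕ) := Nat.pos_of_ne_zero fun h => hk (Fin.ext h)
  have hlast : ((Fin.last (m + 2) : Fin (m + 3)) : ℕ) = m + 2 := rfl
  have h0v : ((0 : Fin (m + 3)) : ℕ) = 0 := rfl
  rcases Nat.lt_or_ge 1 (k : ℕ) with h | h
  · have h1 : 0 < det (u 1 - u 0) (u k - u 0) :=
      hu 0 1 k (by rw [Fin.lt_def, h1v]; norm_num) (by rw [Fin.lt_def, h1v]; exact h)
    rcases Nat.lt_or_ge (k : ℕ) (m + 2) with h2 | h2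
    · have h3 : 0 < det (u k - u 0) (u (Fin.last _) - u 0) :=
        hu 0 k (Fin.last _) (by rw [Fin.lt_def]; exact hk') (by rw [Fin.lt_def, hlast]; exact h2)
      linarith
    · have h3 : k = Fin.last _ := Fin.ext (by rw [hlast]; have := k.isLt; omega)
      rw [h3] at h1 ⊢
      rw [det_self]
      linarith
  · have h3 : k = 1 := Fin.ext (by rw [h1v]; omega)
    have h4 : 0 < det (u 1 - u 0) (u (Fin.last _) - u 0) :=
      hu 0 1 (Fin.last _) (by rw [Fin.lt_def, h1v]; norm_num)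
        (by rw [Fin.lt_def, h1v, hlast]; omega)
    rw [h3, det_self]
    linarith

/-- every vertex is the strict maximum of a linear functional -/
theorem vertex_max {m : ℕ} {v : Fin (m + 3) → ℂ} (hv : CCW v) (i : Fin (m + 3)) :
    ∃ f : ℂ →ₗ[ℝ] ℝ, ∀ k, k ≠ i → f (v k) < f (v i) := by
  set u : Fin (m + 3) → ℂ := fun j => v (j + i) with hu
  have hcu : CCW u := Cx.rotate (R := fun x => 0 < x) hv i
  refine ⟨detL (u (Fin.last _) - u 1), fun k hk => ?_⟩
  have h1 := ccw_last hcu (k := k - i) (sub_ne_zero.2 hk)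
  have e0 : u 0 = v i := by simp [hu]
  have e1 : u (k - i) = v k := by simp [hu]
  rw [e1, e0] at h1
  rw [detL_apply, detL_apply]
  unfold det at h1 ⊢
  simp only [sub_re, sub_im] at h1 ⊢
  linarith

theorem ccw_injective {m : ℕ} {v : Fin (m + 3) → ℂ} (hv : CCW v) : Function.Injective v := by
  intro a b hab
  by_contra hne
  obtain ⟨f, hf⟩ := vertex_max hv b
  have := hf a hne
  rw [hab] at this
  exact lt_irrefl _ this

/-- a congruence matches the vertices -/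
theorem match_vertices {m : ℕ} {v w : Fin (m + 3) → ℂ} (hw : CCW w)
    (h : Congruent (poly v) (poly w)) :
    ∃ (g : ℂ ≃ᵢ ℂ) (σ : Fin (m + 3) ≃ Fin (m + 3)), ∀ j, g (v (σ j)) = w j := by
  obtain ⟨g, hg⟩ := h
  rw [← poly_iso] at hg
  have hne : (poly w).Nonempty := CCW.poly_nonempty (by omega) hw
  have hhull := hull_eq_of_poly_eq hg hne
  have h1 : ∀ j, ∃ i, g (v i) = w j := by
    intro j
    obtain ⟨f, hf⟩ := vertex_max hw j
    obtain ⟨i, hi⟩ := corner hhull f (w j) ⟨j, rfl⟩ (fun k hk => hf k (fun h => hk (by rw [h])))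
    exact ⟨i, hi⟩
  choose σ hσ using h1
  have hinj : Function.Injective σ := by
    intro a b hab
    apply ccw_injective hw
    rw [← hσ a, ← hσ b, hab]
  exact ⟨g, Equiv.ofBijective σ (Finite.injective_iff_bijective.1 hinj), hσ⟩

theorem continuousAt_nz {m : ℕ} {v : Fin (m + 3) → ℂ} (hv : v 1 ≠ v 0) :
    ContinuousAt (nz : (Fin (m + 3) → ℂ) → Par m) v := by
  have h0 : ((‖v 1 - v 0‖ : ℝ) : ℂ) ≠ 0 := by
    rw [ofReal_ne_zero, norm_ne_zero_iff, sub_ne_zero]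
    exact hv
  unfold nz
  refine ContinuousAt.prodMk (by fun_prop) ?_
  refine continuousAt_pi.2 fun j => ?_
  refine ContinuousAt.div ?_ (by fun_prop) h0
  have : Continuous fun v : Fin (m + 3) → ℂ =>
      (v j.succ.succ - v 0) * (starRingEnd ℂ) (v 1 - v 0) := by
    have h := Complex.continuous_conj
    fun_prop
  exact this.continuousAt

theorem inj_of_det {E : Type*} [NormedAddCommGroup E] [NormedSpace ℝ E] [FiniteDimensional ℝ E]
    {f : E → E} {A : E →L[ℝ] E} {e : E} (h : HasStrictFDerivAt f A e) (hA : A.det ≠ 0) :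
    ∃ U ∈ 𝓝 e, Set.InjOn f U := by
  have : CompleteSpace E := FiniteDimensional.complete ℝ E
  have h1 : HasStrictFDerivAt f
      ((ContinuousLinearMap.toContinuousLinearEquivOfDetNeZero A hA : E ≃L[ℝ] E) :
        E →L[ℝ] E) e := by
    rw [ContinuousLinearMap.coe_toContinuousLinearEquivOfDetNeZero]
    exact h
  exact ⟨(h1.toOpenPartialHomeomorph f).source,
    (h1.toOpenPartialHomeomorph f).open_source.mem_nhds h1.mem_toOpenPartialHomeomorph_source,
    (h1.toOpenPartialHomeomorph f).injOn⟩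

/-- the data map is injective near a regular point -/
theorem local_inj (M : Model) {m : ℕ} {x : Fin (m + 2) → ℝ} (hx : IsNodes x)
    {σ : Fin (2 * m + 3) → ℝ} (hσ : ∀ a, 0 ≤ σ a) {e : Par m} (he : e ∈ FanPos m)
    (hdet : (fderiv ℝ (Fh M x σ) e).det ≠ 0) :
    ∃ U ∈ 𝓝 e, Set.InjOn (Fh M x σ) U :=
  inj_of_det (Fh_analytic M hx hσ e he).hasStrictFDerivAt hdet

theorem isOpen_uniq (M : Model) {m : ℕ} {x : Fin (m + 2) → ℝ} (hx : IsNodes x)
    {σ : Fin (2 * m + 3) → ℝ} (hσ : ∀ a, 0 ≤ σ a) : IsOpen {v | v ∈ GoodSet M x σ ∧ Uq v} := by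
  rw [isOpen_iff_mem_nhds]
  intro v hv
  by_contra hnot
  have hcl : v ∈ closure {v | v ∈ GoodSet M x σ ∧ Uq v}ᶜ := by
    rw [closure_compl]
    intro h
    exact hnot (mem_interior_iff_mem_nhds.1 h)
  obtain ⟨w, hw, hwv⟩ := mem_closure_iff_seq_limit.1 hcl
  obtain ⟨hvG, hvU⟩ := hv
  have hG : ∀ᶠ j in atTop, w j ∈ GoodSet M x σ :=
    hwv.eventually ((isOpen_GoodSet M hx hσ).mem_nhds hvG)
  have hbad : ∀ᶠ j in atTop, w j ∈ GoodSet M x σ ∧ ∃ e : Par m, Iso (dirEig (poly (w j))) e ∧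
      ¬ Congruent (poly (sv e)) (poly (w j)) := by
    filter_upwards [hG] with j hj
    refine ⟨hj, ?_⟩
    have h1 : ¬ Uq (w j) := fun h => hw j ⟨hj, h⟩
    unfold Uq at h1
    push Not at h1
    obtain ⟨m₁, hm₁, hm₂, u, hu, huk, hne⟩ := h1
    obtain ⟨m', rfl⟩ : ∃ m', m₁ = m' + 3 := ⟨m₁ - 3, by omega⟩
    obtain ⟨g1, g2, g3, g4, g5⟩ := ccw_nz hu
    have hI : Iso (dirEig (poly (w j))) (nz u) := ⟨g2, g3, fun k => by rw [g5, huk k]⟩
    rcases lt_or_eq_of_le (show m' ≤ m by omega) with hlt | heq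
    · exact absurd hI (hj.2.1 m' hlt _)
    · subst heq
      refine ⟨nz u, hI, fun hc => hne rfl ?_⟩
      exact congruent_trans (congruent_symm g4) hc
  obtain ⟨ψ, hψ, hψ'⟩ := extraction_of_frequently_atTop hbad.frequently
  choose hGw e he hnc using hψ'
  have hne : (poly v).Nonempty := hvG.1.poly_nonempty (by omega)
  have hwψ : Tendsto (fun N => w (ψ N)) atTop (𝓝 v) := hwv.comp hψ.tendsto_atTop
  have hlim : ∀ k, Tendsto (fun N => dirEig (poly (sv (e N))) k) atTop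
      (𝓝 (dirEig (poly v) k)) := by
    intro k
    simp only [(he _).2.2]
    exact (dirEig_tendsto hwv hne k).comp hψ.tendsto_atTop
  obtain ⟨φ, hφ, h⟩ := compact_seq (tendsto_dirEig M hvG.1) e (fun N => ⟨(he N).1, (he N).2.1⟩)
    hlim
  rcases h with ⟨e', he1, he2, he3, he4⟩ | ⟨m'', hm'', e', he'⟩
  swap
  · exact hvG.2.1 m'' hm'' e' he'
  obtain ⟨-, hcong⟩ := hvU (m + 3) (by omega) le_rfl (sv e') he2 he3
  obtain ⟨g, τ, hg⟩ := match_vertices hvG.1 hcong
  -- the vertices of the sequence in the order of `v`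
  set y : ℕ → Fin (m + 3) → ℂ := fun N i => g (sv (e (φ N)) (τ i)) with hy
  have hyv : Tendsto y atTop (𝓝 v) := by
    have h1 : Continuous fun e : Par m => fun i => g (sv e (τ i)) := by
      refine continuous_pi fun i => g.continuous.comp ?_
      exact (continuous_apply (τ i)).comp continuous_sv
    have h2 := (h1.tendsto e').comp he4
    have h3 : (fun i => g (sv e' (τ i))) = v := funext hg
    rw [h3] at h2
    exact h2
  have hyc : ∀ N, Congruent (poly (sv (e (φ N)))) (poly (y N)) := by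
    intro N
    refine ⟨g, ?_⟩
    rw [← poly_iso]
    apply poly_range
    have : y N = (fun i => g (sv (e (φ N)) i)) ∘ τ := rfl
    rw [this, τ.surjective.range_comp]
  have hccw : ∀ᶠ N in atTop, CCW (y N) := hyv.eventually (isOpen_CCW.mem_nhds hvG.1)
  have hv1 := ccw_ne hvG.1
  have hIv : Iso (dirEig (poly v)) (nz v) := by
    obtain ⟨g1, g2, g3, g4, g5⟩ := ccw_nz hvG.1
    exact ⟨g2, g3, g5⟩
  obtain ⟨U, hU, hinj⟩ := local_inj M hx hσ (mem_FanPos hIv.1 hIv.2.1) (hvG.2.2 _ hIv)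
  have hU1 : ∀ᶠ N in atTop, nz (y N) ∈ U := ((continuousAt_nz hv1).tendsto.comp hyv) hU
  have hU2 : ∀ᶠ N in atTop, nz (w (ψ (φ N))) ∈ U :=
    ((continuousAt_nz hv1).tendsto.comp (hwψ.comp hφ.tendsto_atTop)) hU
  obtain ⟨N, h1, h2, h3⟩ := (hccw.and (hU1.and hU2)).exists
  have hwc : CCW (w (ψ (φ N))) := (hGw (φ N)).1
  obtain ⟨a1, a2, a3, a4, a5⟩ := ccw_nz h1
  obtain ⟨b1, b2, b3, b4, b5⟩ := ccw_nz hwc
  have hIy : Iso (dirEig (poly (w (ψ (φ N))))) (nz (y N)) := by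
    refine ⟨a2, a3, fun k => ?_⟩
    rw [a5, ← dirEig_congruent (hyc N)]
    exact (he (φ N)).2.2 k
  have hIw : Iso (dirEig (poly (w (ψ (φ N))))) (nz (w (ψ (φ N)))) := ⟨b2, b3, b5⟩
  have hEq : nz (y N) = nz (w (ψ (φ N))) := by
    apply hinj h2 h3
    show idn m _ = idn m _
    rw [dat_eq M hx hx hIy hIw hσ]
  apply hnc (φ N)
  refine congruent_trans (hyc N) (congruent_trans (congruent_symm a4) ?_)
  rw [hEq]
  exact b4

/-- almost every polygon is good -/
theorem ae_good (M : Model) (m : ℕ) : ∃ x : Fin (m + 2) → ℝ, IsNodes x ∧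
    ∃ σ : Fin (2 * m + 3) → ℝ, (∀ a, 0 ≤ σ a) ∧
      ∀ᵐ v : Fin (m + 3) → ℂ, CCW v → v ∈ GoodSet M x σ := by
  obtain ⟨x, hx, σ, hσ, e₀, he₀, hreg₀⟩ := exists_regular M m
  have hdet₀ := det_Fh M hx hσ he₀ hreg₀
  choose X hX using fun m' => (exists_regular M m')
  have hXn : ∀ m', IsNodes (X m') := fun m' => (hX m').1
  refine ⟨x, hx, σ, hσ, ?_⟩
  set Crit : Set (Par m) := Fh M x σ '' {e | e ∈ FanPos m ∧ (fderiv ℝ (Fh M x σ) e).det = 0}
    with hCrit
  set Low : Set (Par m) := ⋃ m' : Fin m, (fun e : Par m' => idn m (dat M (X m') σ e)) ''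
    FanPos (m' : ℕ) with hLow
  have hdiff : ∀ e ∈ FanPos m, HasFDerivAt (Fh M x σ) (fderiv ℝ (Fh M x σ) e) e := fun e he =>
    (Fh_analytic M hx hσ e he).differentiableAt.hasFDerivAt
  have hCrit0 : volume Crit = 0 := by
    apply addHaar_image_eq_zero_of_det_fderivWithin_eq_zero volume
      (f' := fderiv ℝ (Fh M x σ))
    · intro e he
      exact (hdiff e he.1).hasFDerivWithinAt
    · intro e he
      exact he.2
  have hLow0 : volume Low = 0 := by
    apply measure_iUnion_null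
    intro m'
    apply low_dim_null volume _ (fanPos_open _)
    · intro e he
      exact ((idn m : (Fin (2 * m + 3) → ℝ) →L[ℝ] Par m).analyticAt _).comp
        (dat_analytic M (hXn m') hσ e he)
    · rw [finrank_Par, finrank_Par]
      have := m'.2
      omega
  have hN0 : volume (Crit ∪ Low) = 0 := measure_union_null hCrit0 hLow0
  have hsard := sard_null volume (fanPos_open m) (fanPos_preconnected m) (Fh_analytic M hx hσ)
    ⟨e₀, he₀, hdet₀⟩ hN0
  have hp : ∀ᵐ e : Par m, e ∈ {e : Par m | ¬ (e ∈ FanPos m ∧ Fh M x σ e ∈ Crit ∪ Low)} := by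
    rw [ae_iff]
    have e1 : {a : Par m | a ∉ {e : Par m | ¬ (e ∈ FanPos m ∧ Fh M x σ e ∈ Crit ∪ Low)}}
        = {e | e ∈ FanPos m ∧ Fh M x σ e ∈ Crit ∪ Low} := by
      ext e
      exact not_not
    rw [e1]
    exact hsard
  filter_upwards [ae_nz hp] with v hv hccw
  obtain ⟨h1, h2, h3, h4, h5⟩ := ccw_nz hccw
  have hFan := mem_FanPos h2 h3
  have hgen : Fh M x σ (nz v) ∉ Crit ∪ Low := fun hmem => hv h1 ⟨hFan, hmem⟩
  have hIso : Iso (dirEig (poly v)) (nz v) := ⟨h2, h3, h5⟩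
  refine ⟨hccw, fun m' hm' e he => ?_, fun e he hd => ?_⟩
  · apply hgen
    right
    rw [hLow, Set.mem_iUnion]
    refine ⟨⟨m', hm'⟩, e, mem_FanPos he.1 he.2.1, ?_⟩
    show idn m (dat M (X m') σ e) = idn m (dat M x σ (nz v))
    rw [dat_eq M (hXn m') hx he hIso hσ]
  · apply hgen
    left
    refine ⟨e, ⟨mem_FanPos he.1 he.2.1, hd⟩, ?_⟩
    rw [Fh, Fh, dat_eq M hx hx he hIso hσ]

/-- almost everywhere uniqueness implies uniqueness by finitely many eigenvalues, on an open set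
of full measure -/
theorem finn {n : ℕ} (hn : 3 ≤ n) (hae : ∀ᵐ v : Fin n → ℂ, CCW v → Uq v) :
    ∃ G : Set (Fin n → ℂ), IsOpen G ∧ (∀ v ∈ G, CCW v) ∧ (∀ᵐ v : Fin n → ℂ, CCW v → v ∈ G) ∧
      ∀ v ∈ G, ∃ N : ℕ, ∀ m : ℕ, 3 ≤ m → m ≤ n → ∀ w : Fin m → ℂ, CCW w →
        (∀ k < N, dirEig (poly w) k = dirEig (poly v) k) →
        m = n ∧ Congruent (poly w) (poly v) := by
  obtain ⟨m, rfl⟩ : ∃ m, n = m + 3 := ⟨n - 3, by omega⟩
  obtain ⟨M⟩ := model_exists
  obtain ⟨x, hx, σ, hσ, hgood⟩ := ae_good M m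
  refine ⟨{v | v ∈ GoodSet M x σ ∧ Uq v}, isOpen_uniq M hx hσ, fun v hv => hv.1.1, ?_, ?_⟩
  · filter_upwards [hgood, hae] with v h1 h2 h3
    exact ⟨h1 h3, h2 h3⟩
  · rintro v ⟨⟨hccw, hlow, hdet⟩, hU⟩
    have hreg : ∀ e : Par m, Iso (dirEig (poly v)) e → ∀ v : Par m,
        (∀ a, fderiv ℝ (gs M x (σ a)) e v = 0) → v = 0 := fun e he w hw =>
      reg_of_det M hx hσ (mem_FanPos he.1 he.2.1) (hdet e he) w hw
    obtain ⟨hfin, N, hN⟩ := finite_of_generic M hx hσ (tendsto_dirEig M hccw) hreg hlow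
    refine ⟨N, ?_⟩
    intro m₁ hm₁ hm₂ w hw hwk
    obtain ⟨m', rfl⟩ : ∃ m', m₁ = m' + 3 := ⟨m₁ - 3, by omega⟩
    obtain ⟨g1, g2, g3, g4, g5⟩ := ccw_nz hw
    obtain ⟨rfl, hI⟩ := hN m' (by omega) (nz w) g2 g3 (fun k hk => by rw [g5, hwk k hk])
    exact hU _ hm₁ hm₂ w hw fun k => by rw [← g5, hI.2.2]

end Pool.Agent.AEU.H41
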